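import Pool.Agent.R165.Metric.Cut

/-!
# MP_68beba_co: the inflation factor of the John ellipsoid of the metric polytope

`V n` is the Euclidean space of real families indexed by the unordered pairs of distinct elements
of `Fin n`, `ent d i j` is the entry `d_{ij}`, `metricPolytope n` is the metric polytope and
`cst t` is the point all of whose coordinates are `t`.
We determine `r_n` for every `n ≥ 3` and the limit of `r_n / n`.
-/

set_option autoImplicit false

open MeasureTheory Metric Filter Topology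

namespace Pool.Agent.Results.MP_68beba_co.JohnInflation

open Pool.Agent.R165.Metric (V cst metricPolytope)

/-- `E` is a (non-degenerate, solid) ellipsoid with centre `c`: an image `A(B) + c` of the closed
unit ball `B` under an invertible linear map followed by a translation. -/
def IsEllipsoid {n : ℕ} (E : Set (V n)) (c : V n) : Prop :=
  ∃ A : V n →ₗ[ℝ] V n, LinearMap.det A ≠ 0 ∧ E = (fun x => c + A x) '' closedBall 0 1

/-- `E`, with centre `c`, is an ellipsoid of largest volume contained in the metric polytope. -/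
def IsJohnEllipsoid (n : ℕ) (E : Set (V n)) (c : V n) : Prop :=
  IsEllipsoid E c ∧ E ⊆ metricPolytope n ∧
    ∀ (E' : Set (V n)) (c' : V n), IsEllipsoid E' c' → E' ⊆ metricPolytope n →
      volume E' ≤ volume E

/-- For every `n ≥ 3` let `δ_n` be the unique root in `(0, 1)` of the cubic
`(1-δ)(2n-2-nδ)(3n-4-(2n-2)δ) = δ((n-2)(2n-2-nδ) + 2(n-2)(1-δ) + 4(1-δ)²)`.
Then the metric polytope has exactly one ellipsoid of largest volume, its centre is the constant
`δ_n`, and the least factor of a dilate that contains the metric polytope is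
`r_n = √(n(n-1)δ_n/(2(1-δ_n)) + ⌊n²/4⌋(2-3δ_n)/(δ_n(1-δ_n)))`.
Moreover `r_n/n → 3^{3/4}√(5+√3)/6`. -/
theorem result :
    ∃ δ r : ℕ → ℝ,
      (∀ n : ℕ, 3 ≤ n →
        (∀ x : ℝ, (0 < x ∧ x < 1 ∧
          (1 - x) * (2 * n - 2 - n * x) * (3 * n - 4 - (2 * n - 2) * x) =
            x * ((n - 2) * (2 * n - 2 - n * x) + 2 * (n - 2) * (1 - x) + 4 * (1 - x) ^ 2)) ↔
          x = δ n) ∧
        r n = √(n * (n - 1) * δ n / (2 * (1 - δ n)) +
          ((n ^ 2 / 4 : ℕ) : ℝ) * (2 - 3 * δ n) / (δ n * (1 - δ n))) ∧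
        (∃ (E : Set (V n)) (c : V n), IsJohnEllipsoid n E c) ∧
        (∀ (E : Set (V n)) (c : V n), IsJohnEllipsoid n E c →
          c = cst (δ n) ∧
          (∀ (E' : Set (V n)) (c' : V n), IsJohnEllipsoid n E' c' → E' = E) ∧
          IsLeast {t : ℝ | 0 < t ∧ metricPolytope n ⊆ AffineMap.homothety c t '' E} (r n))) ∧
      Tendsto (fun n : ℕ => r n / n) atTop (𝓝 ((3 : ℝ) ^ (3 / 4 : ℝ) * √(5 + √3) / 6)) := by
  classical
  choose! δ h1 h2 h3 using fun (n : ℕ) (hn : 3 ≤ n) =>
    Pool.Agent.R165.Metric.exists_root hn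
  refine ⟨δ, fun n => √(Pool.Agent.R165.Metric.Qmax n (δ n)), fun n hn => ?_, ?_⟩
  · have hd0 : 0 < δ n := by linarith [h1 n hn]
    have hd1 : δ n < 1 := by linarith [h2 n hn]
    obtain ⟨j1, j2⟩ := Pool.Agent.R165.Metric.john hn hd0 hd1 (h3 n hn)
    set R := Pool.Agent.R165.Metric.R n (δ n) with hR
    have hRdet : LinearMap.det R ≠ 0 := Pool.Agent.R165.Metric.R_det hn hd0 hd1
    set E0 := Pool.Agent.R165.John.ellipsoid R (cst (δ n)) with hE0
    have hE0J : IsJohnEllipsoid n E0 (cst (δ n)) := by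
      refine ⟨⟨R, hRdet, rfl⟩, j1, ?_⟩
      rintro E' c' ⟨A, hA, rfl⟩ hsub
      exact (Pool.Agent.R165.John.volume_le_iff A R c' (cst (δ n))).2 (j2 A c' hsub).1
    have huniq : ∀ (E : Set (V n)) (c : V n), IsJohnEllipsoid n E c → E = E0 ∧ c = cst (δ n) := by
      rintro E c ⟨⟨A, hA, rfl⟩, hsub, hmax⟩
      have hv := hmax E0 (cst (δ n)) ⟨R, hRdet, rfl⟩ j1
      exact (j2 A c hsub).2
        ((Pool.Agent.R165.John.volume_le_iff R A (cst (δ n)) c).1 hv)
    refine ⟨fun x => ⟨?_, ?_⟩, rfl, ⟨E0, _, hE0J⟩, fun E c hE => ?_⟩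
    · rintro ⟨hx0, hx1, hx⟩
      refine Pool.Agent.R165.Metric.root_unique hn hx0 hx1 ?_ hd0 hd1 (h3 n hn)
      unfold Pool.Agent.R165.Metric.cubic
      rw [hx, sub_self]
    · rintro rfl
      refine ⟨hd0, hd1, ?_⟩
      have := h3 n hn
      unfold Pool.Agent.R165.Metric.cubic at this
      exact sub_eq_zero.1 this
    · obtain ⟨rfl, rfl⟩ := huniq E c hE
      refine ⟨rfl, fun E' c' hE' => (huniq E' c' hE').1, ?_⟩
      exact Pool.Agent.R165.Metric.isLeast hn (h1 n hn).le (h2 n hn).le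
  · have hlim : Tendsto δ atTop (𝓝 ((3 - √3) / 2)) := by
      rw [tendsto_iff_norm_sub_tendsto_zero]
      have hz : Tendsto (fun n : ℕ => (10 : ℝ) / n) atTop (𝓝 0) :=
        tendsto_const_div_atTop_nhds_zero_nat 10
      refine squeeze_zero' (Eventually.of_forall fun n => norm_nonneg _) ?_ hz
      filter_upwards [eventually_ge_atTop 3] with n hn
      rw [Real.norm_eq_abs]
      exact Pool.Agent.R165.Metric.root_bound hn (h1 n hn) (h2 n hn) (h3 n hn)
    have h4 := (Real.continuous_sqrt.tendsto _).comp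
      (Pool.Agent.R165.Metric.tendsto_Qmax δ hlim)
    rw [Pool.Agent.R165.Metric.const_eq] at h4
    refine h4.congr fun n => ?_
    simp only [Function.comp_apply]
    rw [Real.sqrt_div' _ (by positivity), Real.sqrt_sq (Nat.cast_nonneg n)]

end Pool.Agent.Results.MP_68beba_co.JohnInflation
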